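import Mathlib

namespace Pool.Agent.Lib.MP_2f2576_co

variable {V : Type}

/-- Condition (i): every vertex meets at most two edges of each colour. -/
def AtMostTwo (X : SimpleGraph V) {C : Type} (c : Sym2 V → C) : Prop :=
  ∀ (v : V) (k : C), {e | e ∈ X.incidenceSet v ∧ c e = k}.encard ≤ 2

/-- No pied circuit graph: conditions (i) and (ii). -/
def NoPied (X : SimpleGraph V) : Prop :=
  ∃ (C : Type) (c : Sym2 V → C), AtMostTwo X c ∧
    ∀ (v : V) (w : X.Walk v v), w.IsCycle → ∃ e ∈ w.edges, ∃ f ∈ w.edges, f ≠ e ∧ c f = c e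

/-- No lonely colour graph: conditions (i) and (iii). -/
def NoLonely (X : SimpleGraph V) : Prop :=
  ∃ (C : Type) (c : Sym2 V → C), AtMostTwo X c ∧
    ∀ (v : V) (w : X.Walk v v), w.IsCycle → ∀ e ∈ w.edges, ∃ f ∈ w.edges, f ≠ e ∧ c f = c e

end Pool.Agent.Lib.MP_2f2576_co
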