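import Pool.Agent.Lib.MP_2f2576_co.Step
import Pool.Agent.Lib.MP_2f2576_co.Defs

namespace Pool.Agent.Lib.MP_2f2576_co

open Function Subgroup

/-- no element of `S` is generated by the others -/
def Indep {G : Type} [Group G] (S : Set G) : Prop := ∀ s ∈ S, s ∉ closure (S \ {s})

/-- no proper colouring with `k` colours -/
def NotCol {G : Type} [Group G] (S : Set G) (k : ℕ) : Prop :=
  ∀ χ : G → Fin k, ∃ x, ∃ s ∈ S, χ x = χ (x * s)

def Good (k : ℕ) : Prop :=
  ∃ (G : Type) (_ : Group G) (_ : Finite G) (S : Set G),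
    Group.IsSolvable G ∧ closure S = ⊤ ∧ Indep S ∧ NotCol S k

theorem good_of_indep {W : Type} [Group W] [Finite W] [Group.IsSolvable W] (S : Set W)
    (hS : Indep S) (k : ℕ) (hk : NotCol S k) : Good k := by
  let G := closure S
  refine ⟨G, inferInstance, inferInstance, G.subtype ⁻¹' S, inferInstance,
    closure_preimage_eq_top S, ?_, ?_⟩
  · intro s hs hmem
    apply hS s.1 hs
    have h1 : closure ((G.subtype ⁻¹' S) \ {s}) ≤ (closure (S \ {s.1})).comap G.subtype := by
      rw [closure_le]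
      rintro t ⟨ht, hts⟩
      exact subset_closure ⟨ht, fun h => hts (Subtype.ext h)⟩
    exact h1 hmem
  · intro χ
    have h : ∀ x : W, ((x : W ⧸ G).out)⁻¹ * x ∈ G := by
      intro x
      have : ((x : W ⧸ G).out : W ⧸ G) = (x : W ⧸ G) := Quotient.out_eq _
      exact QuotientGroup.eq.1 this
    obtain ⟨x, s, hs, e⟩ := hk fun x => χ ⟨_, h x⟩
    have hsG : s ∈ G := subset_closure hs
    refine ⟨⟨_, h x⟩, ⟨s, hsG⟩, hs, ?_⟩
    rw [e]
    congr 1
    apply Subtype.ext
    have : ((x * s : W) : W ⧸ G) = (x : W ⧸ G) := QuotientGroup.mk_mul_of_mem x hsG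
    change ((x * s : W) : W ⧸ G).out⁻¹ * (x * s) = ((x : W ⧸ G).out)⁻¹ * x * s
    rw [this, mul_assoc]

theorem good_succ (k : ℕ) (h : Good k) : Good (k + 1) := by
  classical
  obtain ⟨G, _, _, S, hG, hgen, hS, hk⟩ := h
  obtain ⟨W, _, _, ι, D, hW, -, hR, hM⟩ := env_of_solvable (k + 1) G
  let M := Multiplicative (ZMod 2)
  let e : M := Multiplicative.ofAdd 1
  have he : e ≠ 1 := by decide
  let t : D → W × (D → M) := fun d => (d.1, Pi.mulSingle d e)
  have hsol : Group.IsSolvable (W × (D → M)) :=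
    Group.isSolvable_of_ker_le_range (MonoidHom.inr W (D → M)) (MonoidHom.fst W (D → M))
      (by rintro ⟨a, b⟩ h; exact ⟨b, Prod.ext (Eq.symm h) rfl⟩)
  refine good_of_indep (W := W × (D → M))
    ((fun s => (ι s, 1)) '' S ∪ Set.range t) ?_ (k + 1) ?_
  · rintro x (⟨s, hs, rfl⟩ | ⟨d, rfl⟩) hmem
    · have hH : closure (S \ {s}) ≠ ⊤ := fun h => hS s hs (h ▸ mem_top s)
      obtain ⟨K, hK1, hK2, g, hg⟩ := hM _ hH
      have h1 : closure (((fun s => ((ι s, 1) : W × (D → M))) '' S ∪ Set.range t) \ {(ι s, 1)})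
          ≤ K.comap (MonoidHom.fst _ _) := by
        rw [closure_le]
        rintro y ⟨⟨s', hs', rfl⟩ | ⟨d, rfl⟩, hy⟩
        · exact hK1 s' (subset_closure ⟨hs', fun h => hy (by
            rw [Set.mem_singleton_iff.1 h]; rfl)⟩)
        · exact hK2 d.1 d.2
      have h2 : ι s ∈ K := h1 hmem
      have h3 : closure S ≤ K.comap ι := by
        rw [closure_le]
        intro s' hs'
        by_cases h : s' = s
        · rw [h]; exact h2
        · exact hK1 s' (subset_closure ⟨hs', h⟩)
      exact hg (h3 (hgen ▸ mem_top g))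
    · let p : W × (D → M) →* M := (Pi.evalMonoidHom (fun _ => M) d).comp (MonoidHom.snd _ _)
      have h1 : closure (((fun s => ((ι s, 1) : W × (D → M))) '' S ∪ Set.range t) \ {t d})
          ≤ p.ker := by
        rw [closure_le]
        rintro y ⟨⟨s', hs', rfl⟩ | ⟨d', rfl⟩, hy⟩
        · rfl
        · have hd : d ≠ d' := fun h => hy (by rw [h]; rfl)
          exact Pi.mulSingle_eq_of_ne (M := fun _ => M) hd e
      have h2 : Pi.mulSingle (M := fun _ => M) d e d = 1 := h1 hmem
      rw [Pi.mulSingle_eq_same] at h2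
      exact he h2
  · intro χ
    by_contra hcon
    push Not at hcon
    obtain ⟨c, d, hd, κ, hκ⟩ := hR fun w => χ (w, 1)
    let x : G → W × (D → M) := fun g => (c * ι g, (Pi.mulSingle (⟨d, hd⟩ : D) e)⁻¹)
    have hx : ∀ g, ∃ z, κ.succAbove z = χ (x g) := by
      intro g
      apply Fin.exists_succAbove_eq
      have := hcon (x g) (t ⟨d, hd⟩) (Or.inr ⟨_, rfl⟩)
      have h2 : x g * t ⟨d, hd⟩ = (c * ι g * d, 1) := Prod.ext rfl (inv_mul_cancel _)
      rw [h2, hκ g] at this
      exact this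
    choose z hz using hx
    obtain ⟨g, s, hs, hgs⟩ := hk z
    apply hcon (x g) (ι s, 1) (Or.inl ⟨s, hs, rfl⟩)
    rw [← hz, hgs, hz]
    congr 1
    simp [x, mul_assoc]

theorem good (k : ℕ) : Good k := by
  induction k with
  | zero =>
    refine ⟨Unit, inferInstance, inferInstance, ∅, inferInstance, Subsingleton.elim _ _,
      fun s hs => hs.elim, fun χ => (χ ()).elim0⟩
  | succ k ih => exact good_succ k ih

section graph
open SimpleGraph
variable {G : Type} [Group G]

/-- colour of an edge -/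
def col : Sym2 G → Set G :=
  Sym2.lift ⟨fun x y => {x⁻¹ * y, y⁻¹ * x}, fun x y => Set.pair_comm _ _⟩

theorem col_mk (x y : G) : col s(x, y) = {x⁻¹ * y, y⁻¹ * x} := rfl

theorem atMostTwo (X : SimpleGraph G) : AtMostTwo X col := by
  intro v k
  by_cases h : ∃ g : G, k = {g, g⁻¹}
  · obtain ⟨g, rfl⟩ := h
    refine le_trans (Set.encard_le_encard (t := {s(v, v * g), s(v, v * g⁻¹)}) ?_) ?_
    · rintro e ⟨⟨-, hv⟩, hc⟩
      obtain ⟨y, rfl⟩ := Sym2.mem_iff_exists.1 hv
      have : v⁻¹ * y ∈ ({g, g⁻¹} : Set G) := hc ▸ Or.inl rfl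
      rcases this with h | h
      · left; rw [← h]; simp
      · right; rw [← Set.mem_singleton_iff.1 h]; simp
    · refine le_trans (Set.encard_insert_le _ _) ?_
      rw [Set.encard_singleton]
      exact le_of_eq (by norm_num)
  · have : {e | e ∈ X.incidenceSet v ∧ col e = k} = ∅ := by
      ext e
      refine ⟨fun ⟨_, hc⟩ => h ?_, fun h => h.elim⟩
      induction e using Sym2.ind with
      | h x y => exact ⟨x⁻¹ * y, by rw [← hc, col_mk]; simp⟩
    rw [this]; simp

theorem walk_parity {V : Type} [DecidableEq V] {X : SimpleGraph V} (b : V → Prop) (e : Sym2 V)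
    (he : ∀ x y, s(x, y) = e → (b x ↔ ¬ b y)) :
    ∀ {u v : V} (w : X.Walk u v), (∀ x y, s(x, y) ∈ w.edges → s(x, y) ≠ e → (b x ↔ b y)) →
      ((b u ↔ b v) ↔ Even (w.edges.count e)) := by
  intro u v w
  induction w with
  | nil => intro _; simp
  | @cons u x v h p ih =>
    intro hw
    have ih' := ih fun a c hac => hw a c (by simp [hac])
    rw [Walk.edges_cons]
    by_cases hux : s(u, x) = e
    · rw [hux, List.count_cons_self, Nat.even_add_one, ← ih', he u x hux]
      tauto
    · rw [List.count_cons_of_ne hux, ← ih', hw u x (by simp) hux]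

theorem noLonely (S : Set G) (hS : Indep S) : NoLonely (mulCayley S) := by
  classical
  refine ⟨Set G, col, atMostTwo _, fun v w hw e he => ?_⟩
  by_contra hcon
  push Not at hcon
  have hadj : ∀ a c, s(a, c) ∈ w.edges → ∃ g ∈ S, a * g = c ∨ a = c * g := fun a c h =>
    ((mulCayley_adj' S a c).1 (w.adj_of_mem_edges h)).2
  obtain ⟨x, s, hs, rfl⟩ : ∃ x, ∃ s ∈ S, e = s(x, x * s) := by
    induction e using Sym2.ind with
    | h a c =>
      obtain ⟨g, hg, h | h⟩ := hadj a c he
      · exact ⟨a, g, hg, by rw [h]⟩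
      · exact ⟨c, g, hg, by rw [← h, Sym2.eq_swap]⟩
  let H := closure (S \ {s})
  have hsH : s ∉ H := hS s hs
  have key : ∀ a g, g ∈ S → s(a, a * g) ∈ w.edges → s(a, a * g) ≠ s(x, x * s) →
      (x⁻¹ * a ∈ H ↔ x⁻¹ * (a * g) ∈ H) := by
    intro a g hg hm hne
    have hgs : g ≠ s := by
      rintro rfl
      apply hcon _ hm hne
      simp [col_mk, mul_assoc]
    have hgH : g ∈ H := subset_closure ⟨hg, hgs⟩
    rw [← mul_assoc, H.mul_mem_cancel_right hgH]
  have h1 := walk_parity (fun a => x⁻¹ * a ∈ H) s(x, x * s) ?_ w ?_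
  · have h2 : w.edges.count s(x, x * s) = 1 :=
      List.count_eq_one_of_mem hw.isTrail.edges_nodup he
    rw [h2] at h1
    simp at h1
  · intro a c hac
    rcases Sym2.eq_iff.1 hac with ⟨rfl, rfl⟩ | ⟨rfl, rfl⟩
    · simp [H.one_mem, hsH]
    · simp [H.one_mem, hsH]
  · intro a c hm hne
    obtain ⟨g, hg, h | h⟩ := hadj a c hm
    · subst h
      exact key a g hg hm hne
    · subst h
      rw [Sym2.eq_swap] at hm hne
      exact (key c g hg hm hne).symm

theorem noPied_of_noLonely {V : Type} {X : SimpleGraph V} (h : NoLonely X) : NoPied X := by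
  obtain ⟨C, c, h1, h2⟩ := h
  refine ⟨C, c, h1, fun v w hw => ?_⟩
  have h3 : w.edges ≠ [] := by
    intro h
    have := hw.three_le_length
    rw [← w.length_edges, h] at this
    simp at this
  obtain ⟨e, he⟩ := List.exists_mem_of_ne_nil _ h3
  exact ⟨e, he, h2 v w hw e he⟩

end graph

theorem main (m : ℕ) :
    ∃ (G : Type) (_ : Group G) (_ : Finite G) (S : Set G),
      Group.IsSolvable G ∧ closure S = ⊤ ∧ (∀ T : Set G, T ⊂ S → closure T ≠ ⊤) ∧
      NoLonely (SimpleGraph.mulCayley S) ∧ NoPied (SimpleGraph.mulCayley S) ∧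
      (m : ℕ∞) < (SimpleGraph.mulCayley S).chromaticNumber := by
  obtain ⟨G, _, _, S, hG, hgen, hS, hk⟩ := good m
  refine ⟨G, inferInstance, inferInstance, S, hG, hgen, ?_, noLonely S hS,
    noPied_of_noLonely (noLonely S hS), ?_⟩
  · intro T hT htop
    obtain ⟨s, hs, hsT⟩ := Set.exists_of_ssubset hT
    apply hS s hs
    have : closure T ≤ closure (S \ {s}) :=
      closure_mono fun t ht => ⟨hT.1 ht, fun h => hsT (Set.mem_singleton_iff.1 h ▸ ht)⟩
    exact this (htop ▸ mem_top s)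
  · by_contra h
    rw [not_lt, SimpleGraph.chromaticNumber_le_iff_colorable] at h
    obtain ⟨C⟩ := h
    obtain ⟨x, s, hs, e⟩ := hk C
    refine C.valid ((SimpleGraph.mulCayley_adj' S x (x * s)).2 ⟨?_, s, hs, Or.inl rfl⟩) e
    intro h1
    have : s = 1 := by simpa using h1
    exact hS s hs (this ▸ one_mem _)

end Pool.Agent.Lib.MP_2f2576_co
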