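import Mathlib

namespace Pool.Agent.Lib.MP_2f2576_co

open Polynomial

/-- A finite commutative ring with an additive retraction to `ZMod N` and a family all of whose
nonempty subset sums are units. -/
theorem exists_ring (N : ℕ) [NeZero N] (ι : Type) [Fintype ι] :
    ∃ (R : Type) (_ : CommRing R) (_ : Finite R) (φ : R →+ ZMod N) (ξ : ι → R),
      φ 1 = 1 ∧ ∀ J : Finset ι, J.Nonempty → IsUnit (∑ j ∈ J, ξ j) := by
  classical
  rcases subsingleton_or_nontrivial (ZMod N) with hN | hN
  · exact ⟨ZMod N, inferInstance, inferInstance, AddMonoidHom.id _, fun _ => 0, rfl,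
      fun J _ => isUnit_of_subsingleton _⟩
  let t : ι → ℕ := fun j => (Fintype.equivFin ι j : ℕ)
  have ht : Function.Injective t := fun a b h =>
    (Fintype.equivFin ι).injective (Fin.ext h)
  let μ : Finset ι → (ZMod N)[X] := fun J => ∑ j ∈ J, X ^ (t j)
  have hμ : ∀ J : Finset ι, J.Nonempty → (μ J).Monic := by
    intro J hJ
    obtain ⟨j0, hj0, hmax⟩ := J.exists_max_image t hJ
    have : μ J = X ^ (t j0) + ∑ j ∈ J.erase j0, X ^ (t j) := by
      simp only [μ]
      rw [Finset.add_sum_erase J (fun j => (X : (ZMod N)[X]) ^ (t j)) hj0]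
    rw [this]
    refine (monic_X_pow _).add_of_left ?_
    rw [degree_X_pow]
    refine lt_of_le_of_lt (degree_sum_le _ _) ?_
    rw [Finset.sup_lt_iff (WithBot.bot_lt_coe _)]
    intro j hj
    rw [degree_X_pow]
    have h1 := hmax j (Finset.mem_of_mem_erase hj)
    have h2 : t j ≠ t j0 := fun h => (Finset.ne_of_mem_erase hj) (ht h)
    exact_mod_cast lt_of_le_of_ne h1 h2
  let T : Finset (Finset ι) := Finset.univ.filter fun J => J.Nonempty
  let g : (ZMod N)[X] := X * ∏ J ∈ T, μ J
  have hP : (∏ J ∈ T, μ J).Monic :=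
    monic_prod_of_monic _ _ fun J hJ => hμ J (Finset.mem_filter.1 hJ).2
  have hg : g.Monic := monic_X.mul hP
  have hgd : 0 < g.natDegree := by
    simp only [g]
    rw [monic_X.natDegree_mul hP, natDegree_X]
    omega
  have hdeg : (1 : (ZMod N)[X]).degree < g.degree := by
    rw [degree_one, degree_eq_natDegree hg.ne_zero]
    exact_mod_cast hgd
  let f : (ZMod N)[X] := g + 1
  have hf : f.Monic := hg.add_of_left hdeg
  have hfd : 0 < f.natDegree := by
    have : f.degree = g.degree := degree_add_eq_left_of_degree_lt hdeg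
    rw [natDegree_eq_of_degree_eq this]
    exact hgd
  let pb := AdjoinRoot.powerBasis' hf
  have hdim : 0 < pb.dim := hfd
  have : Module.Finite (ZMod N) (AdjoinRoot f) := pb.finite
  have : Finite (AdjoinRoot f) := Module.finite_of_finite (ZMod N)
  refine ⟨AdjoinRoot f, inferInstance, inferInstance,
    (pb.basis.coord ⟨0, hdim⟩).toAddMonoidHom, fun j => AdjoinRoot.mk f (X ^ t j), ?_, ?_⟩
  · have h1 : (1 : AdjoinRoot f) = pb.basis ⟨0, hdim⟩ := by
      rw [pb.basis_eq_pow]; simp
    change pb.basis.coord ⟨0, hdim⟩ 1 = 1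
    rw [h1, Module.Basis.coord_apply, Module.Basis.repr_self, Finsupp.single_eq_same]
  · intro J hJ
    rw [← map_sum]
    change IsUnit (AdjoinRoot.mk f (μ J))
    have hJT : J ∈ T := Finset.mem_filter.2 ⟨Finset.mem_univ _, hJ⟩
    have hd : μ J ∣ g := Dvd.dvd.mul_left (Finset.dvd_prod_of_mem _ hJT) _
    have h0 : AdjoinRoot.mk f g = -1 := by
      have := AdjoinRoot.mk_self (f := f)
      simp only [f, map_add, map_one] at this
      exact eq_neg_of_add_eq_zero_left this
    have := map_dvd (AdjoinRoot.mk f) hd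
    rw [h0] at this
    exact isUnit_of_dvd_unit this isUnit_one.neg

end Pool.Agent.Lib.MP_2f2576_co
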