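import Pool.Agent.Lib.MP_2f2576_co.Ring

namespace Pool.Agent.Lib.MP_2f2576_co

open Function
open scoped commutatorElement

set_option linter.unusedSectionVars false

/-- Ramsey envelope of a group `G` for `k` colours. -/
def Env (G : Type) [Group G] (k : ℕ) : Prop :=
  ∃ (W : Type) (_ : Group W) (_ : Finite W) (ι : G →* W) (D : Set W),
    Group.IsSolvable W ∧ Injective ι ∧
    (∀ χ : W → Fin k, ∃ c : W, ∃ d ∈ D, ∃ κ, ∀ g, χ (c * ι g * d) = κ) ∧
    ∀ H : Subgroup G, H ≠ ⊤ → ∃ K : Subgroup W, (∀ h ∈ H, ι h ∈ K) ∧ (∀ d ∈ D, d ∈ K) ∧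
      ∃ g, ι g ∉ K

section pw
variable {A : Type} [CommGroup A] [Finite A]

/-- power with exponent in `ZMod (card A)` -/
noncomputable def pw (a : A) (u : ZMod (Nat.card A)) : A := a ^ u.val

instance : NeZero (Nat.card A) := ⟨Nat.card_pos.ne'⟩

theorem pw_add (a : A) (u v : ZMod (Nat.card A)) : pw a (u + v) = pw a u * pw a v := by
  simp only [pw, ZMod.val_add, pow_mod_natCard, pow_add]

theorem pw_one (a : A) : pw a 1 = a := by
  simp only [pw, ZMod.val_one_eq_one_mod, pow_mod_natCard, pow_one]

theorem pw_zero (a : A) : pw a 0 = 1 := by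
  simp only [pw, ZMod.val_zero, pow_zero]

theorem mul_pw (a b : A) (u : ZMod (Nat.card A)) : pw (a * b) u = pw a u * pw b u := by
  simp only [pw, mul_pow]

theorem pw_sum {ι : Type} (a : A) (J : Finset ι) (u : ι → ZMod (Nat.card A)) :
    pw a (∑ j ∈ J, u j) = ∏ j ∈ J, pw a (u j) := by
  classical
  induction J using Finset.induction_on with
  | empty => simp [pw_zero]
  | insert j J hj ih => rw [Finset.sum_insert hj, Finset.prod_insert hj, pw_add, ih]

end pw

/-- equivariant sections -/
def Sec {G W : Type} [Group G] [Group W] (j : G →* W) : Type :=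
  {σ : W → G // ∀ x g, j (σ (x * j g)) = j (σ x) * j g}

instance {G W : Type} [Group G] [Group W] [Finite G] [Finite W] (j : G →* W) :
    Finite (Sec j) := by
  unfold Sec; infer_instance

theorem sec_nonempty {G W : Type} [Group G] [Group W] (j : G →* W) : Nonempty (Sec j) := by
  have h : ∀ x : W, ∃ g, j g = ((x : W ⧸ j.range).out)⁻¹ * x := by
    intro x
    have : ((x : W ⧸ j.range).out : W ⧸ j.range) = (x : W ⧸ j.range) := Quotient.out_eq _
    exact QuotientGroup.eq.1 this
  choose σ hσ using h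
  refine ⟨⟨σ, fun x g => ?_⟩⟩
  have : ((x * j g : W) : W ⧸ j.range) = (x : W ⧸ j.range) :=
    QuotientGroup.mk_mul_of_mem x ⟨g, rfl⟩
  rw [hσ, hσ, this, mul_assoc]

/-- The permutation action of `W × Rˣ` on functions on `S × W × R`. -/
def act (S W R A : Type) [Group W] [CommRing R] [CommGroup A] :
    W × Rˣ →* MulAut (S × W × R → A) where
  toFun q :=
    { toFun := fun f y => f (y.1, y.2.1 * q.1, y.2.2 * q.2)
      invFun := fun f y => f (y.1, y.2.1 * q.1⁻¹, y.2.2 * (q.2⁻¹ : Rˣ))
      left_inv := fun f => by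
        funext y; simp [mul_assoc]
      right_inv := fun f => by
        funext y; simp [mul_assoc]
      map_mul' := fun f g => rfl }
  map_one' := by
    ext f y; simp
  map_mul' q q' := by
    ext f y; simp [mul_assoc]

theorem act_apply {S W R A : Type} [Group W] [CommRing R] [CommGroup A] (q : W × Rˣ)
    (f : S × W × R → A) (y : S × W × R) :
    act S W R A q f y = f (y.1, y.2.1 * q.1, y.2.2 * q.2) := rfl

/-- the permutational wreath product -/
abbrev Wr (S W R A : Type) [Group W] [CommRing R] [CommGroup A] : Type :=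
  (S × W × R → A) ⋊[act S W R A] (W × Rˣ)

section
variable {S W R A : Type} [Group W] [CommRing R] [CommGroup A]

theorem wr_mul_left (a b : Wr S W R A) (y : S × W × R) :
    (a * b).left y = a.left y * b.left (y.1, y.2.1 * a.right.1, y.2.2 * a.right.2) := rfl

theorem wr_mul_right (a b : Wr S W R A) : (a * b).right = a.right * b.right := rfl

theorem wr_inv_left (a : Wr S W R A) (y : S × W × R) :
    (a⁻¹).left y = (a.left (y.1, y.2.1 * a.right⁻¹.1, y.2.2 * a.right⁻¹.2))⁻¹ := rfl

theorem wr_solvable [Group.IsSolvable W] : Group.IsSolvable (Wr S W R A) := by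
  have h1 : Group.IsSolvable (W × Rˣ) :=
    Group.isSolvable_of_ker_le_range (MonoidHom.inr W Rˣ) (MonoidHom.fst W Rˣ)
      (by rintro ⟨a, b⟩ h; exact ⟨b, Prod.ext (Eq.symm h) rfl⟩)
  exact Group.isSolvable_of_ker_le_range (SemidirectProduct.inl) (SemidirectProduct.rightHom)
      (le_of_eq SemidirectProduct.range_inl_eq_ker_rightHom.symm)

end

theorem env_step {G A Q : Type} [Group G] [Finite G] [CommGroup A] [Finite A] [Group Q]
    (i : A →* G) (hi : Injective i) (π : G →* Q) (hπ : Surjective π)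
    (hker : ∀ g, π g = 1 ↔ ∃ a, i a = g) (k : ℕ) (hQ : Env Q k) : Env G k := by
  classical
  obtain ⟨W, _, _, ι, D, hW, hι, hR, hM⟩ := hQ
  let j : G →* W := ι.comp π
  have hj : ∀ g, j g = 1 ↔ ∃ a, i a = g := by
    intro g
    rw [← hker]
    exact ⟨fun h => hι (by rw [map_one]; exact h), fun h => by simp [j, h]⟩
  have hδ : ∀ (σ : Sec j) (g : G) (x : W), ∃ a, i a = σ.1 x * g * (σ.1 (x * j g))⁻¹ := by
    intro σ g x
    rw [← hj, map_mul, map_mul, map_inv, σ.2]
    simp
  choose δ hδ using hδ
  have hδm : ∀ σ g g' x, δ σ (g * g') x = δ σ g x * δ σ g' (x * j g) := by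
    intro σ g g' x
    apply hi
    rw [map_mul, hδ, hδ, hδ, map_mul, mul_assoc x]
    group
  obtain ⟨I, _, hI⟩ := Combinatorics.Line.exists_mono_in_high_dimension (Sec j × W → A)
    (W → Fin k)
  obtain ⟨R, _, _, φ, ξ, hφ, hξ⟩ := exists_ring (Nat.card A) I
  have hfin : Finite (Wr (Sec j) W R A) := Finite.of_equiv _ (SemidirectProduct.equivProd).symm
  let ι' : G →* (Wr (Sec j) W R A) := MonoidHom.mk'
    (fun g => ⟨fun y => pw (δ y.1 g y.2.1) (φ y.2.2), (j g, 1)⟩) (by
      intro g g'
      apply SemidirectProduct.ext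
      · funext y
        rw [wr_mul_left]
        simp only [hδm, mul_pw, Units.val_one, mul_one]
      · rw [wr_mul_right]
        simp only [map_mul, Prod.mk_mul_mk, mul_one])
  have hι'l : ∀ g y, (ι' g).left y = pw (δ y.1 g y.2.1) (φ y.2.2) := fun g y => rfl
  have hι'r : ∀ g, (ι' g).right = (j g, 1) := fun g => rfl
  obtain ⟨σ0⟩ := sec_nonempty j
  refine ⟨(Wr (Sec j) W R A), inferInstance, hfin, ι', {w | w.left = 1 ∧ w.right.1 ∈ D}, ?_, ?_, ?_, ?_⟩
  · exact wr_solvable
  · rw [injective_iff_map_eq_one]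
    intro g hg
    have h1 : j g = 1 := by
      have := congrArg (fun w : (Wr (Sec j) W R A) => w.right.1) hg
      simpa [hι'r] using this
    have h2 : δ σ0 g 1 = 1 := by
      have := congrArg (fun w : (Wr (Sec j) W R A) => w.left (σ0, 1, 1)) hg
      simpa [hι'l, hφ, pw_one] using this
    have h3 := hδ σ0 g 1
    rw [h2, map_one, h1, mul_one] at h3
    have : g = (σ0.1 1)⁻¹ * (σ0.1 1 * g * (σ0.1 1)⁻¹) * σ0.1 1 := by group
    rw [this, ← h3]; simp
  · intro χ
    let u : (I → Sec j × W → A) → (Sec j × W × R → A) :=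
      fun w y => ∏ t, pw (w t (y.1, y.2.1)) (φ (y.2.2 * ξ t))
    obtain ⟨l, C0, hl⟩ := hI fun w x => χ ⟨u w, (x, 1)⟩
    obtain ⟨c, d, hd, κ, hc⟩ := hR C0
    let J : Finset I := Finset.univ.filter fun t => l.idxFun t = none
    have hJ : J.Nonempty := by
      obtain ⟨t, ht⟩ := l.proper
      exact ⟨t, by simp [J, ht]⟩
    obtain ⟨lam, hlam⟩ := hξ J hJ
    let u0 : Sec j × W × R → A := fun y =>
      ∏ t ∈ Finset.univ.filter (fun t => ¬ l.idxFun t = none),
        pw (((l.idxFun t).getD 1) (y.1, y.2.1)) (φ (y.2.2 * ξ t))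
    have hu : ∀ v y, u (l v) y = u0 y * pw (v (y.1, y.2.1)) (φ (y.2.2 * lam)) := by
      intro v y
      simp only [u, u0]
      rw [← Finset.prod_filter_not_mul_prod_filter Finset.univ (fun t => l.idxFun t = none),
        hlam, Finset.mul_sum, map_sum, pw_sum]
      congr 1
      · refine Finset.prod_congr rfl fun t ht => ?_
        have := (Finset.mem_filter.1 ht).2
        obtain ⟨z, hz⟩ := Option.ne_none_iff_exists'.1 this
        simp [hz]
      · refine Finset.prod_congr rfl fun t ht => ?_
        have := (Finset.mem_filter.1 ht).2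
        simp [this]
    refine ⟨⟨u0, (c, lam)⟩, ⟨1, (d, lam⁻¹)⟩, ⟨rfl, hd⟩, κ, fun g => ?_⟩
    have h1 := congrFun (hl fun p => δ p.1 g (p.2 * c)) (c * ι (π g) * d)
    rw [hc] at h1
    rw [← h1]
    congr 1
    apply SemidirectProduct.ext
    · funext y
      rw [wr_mul_left, wr_mul_left, hι'l]
      simp only [Pi.one_apply, mul_one]
      exact (hu (fun p => δ p.1 g (p.2 * c)) y).symm
    · rw [wr_mul_right, wr_mul_right, hι'r]
      simp only [Prod.mk_mul_mk, mul_one, mul_inv_cancel]
      rfl
  · intro H hH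
    by_cases hm : H.map π = ⊤
    · have hs : ∀ x : W, ∃ h ∈ H, j h = j (σ0.1 x) := by
        intro x
        have : π (σ0.1 x) ∈ H.map π := hm ▸ Subgroup.mem_top _
        obtain ⟨h, hh, e⟩ := this
        exact ⟨h, hh, by simp [j, e]⟩
      choose s hsH hs using hs
      let σ : Sec j := ⟨s, fun x g => by rw [hs, hs, σ0.2]⟩
      let K : Subgroup (Wr (Sec j) W R A) :=
        { carrier := {w | ∀ x r, i (w.left (σ, x, r)) ∈ H}
          one_mem' := by
            intro x r
            simp [H.one_mem]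
          mul_mem' := by
            intro a b ha hb x r
            rw [wr_mul_left, map_mul]
            exact H.mul_mem (ha _ _) (hb _ _)
          inv_mem' := by
            intro a ha x r
            rw [wr_inv_left, map_inv]
            exact H.inv_mem (ha _ _) }
      refine ⟨K, ?_, ?_, ?_⟩
      · intro h hh x r
        rw [hι'l]
        simp only [pw, map_pow, hδ]
        exact H.pow_mem (H.mul_mem (H.mul_mem (hsH _) hh) (H.inv_mem (hsH _))) _
      · rintro w ⟨hw, -⟩ x r
        rw [hw]
        simp [H.one_mem]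
      · obtain ⟨g, hg⟩ : ∃ g, g ∉ H := by
          by_contra hc
          push Not at hc
          exact hH ((Subgroup.eq_top_iff' H).2 hc)
        refine ⟨g, fun hK => hg ?_⟩
        have h1 := hK 1 1
        rw [hι'l] at h1
        simp only [hφ, pw_one, hδ] at h1
        have h2 := H.mul_mem (H.mul_mem (H.inv_mem (hsH 1)) h1) (hsH (1 * j g))
        simpa [σ, mul_assoc] using h2
    · obtain ⟨K, hK1, hK2, q, hq⟩ := hM _ hm
      refine ⟨K.comap ((MonoidHom.fst W Rˣ).comp SemidirectProduct.rightHom), ?_, ?_, ?_⟩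
      · intro h hh
        exact hK1 _ ⟨h, hh, rfl⟩
      · rintro w ⟨-, hw⟩
        exact hK2 _ hw
      · obtain ⟨g, rfl⟩ := hπ q
        exact ⟨g, hq⟩

theorem env_of_derived (k : ℕ) : ∀ (n : ℕ) (G : Type) [Group G] [Finite G],
    derivedSeries G n = ⊥ → Env G k := by
  intro n
  induction n with
  | zero =>
    intro G _ _ h
    have hs : Subsingleton G := by
      refine ⟨fun a b => ?_⟩
      have h1 : ∀ a : G, a = 1 := fun a => by
        have : a ∈ derivedSeries G 0 := Subgroup.mem_top a
        rw [h] at this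
        exact this
      rw [h1 a, h1 b]
    refine ⟨G, inferInstance, inferInstance, MonoidHom.id G, {1}, inferInstance,
      injective_id, fun χ => ⟨1, 1, rfl, χ 1, fun g => by congr 1; exact Subsingleton.elim _ _⟩,
      fun H hH => absurd (Subsingleton.elim _ _) hH⟩
  | succ n ih =>
    intro G _ _ h
    let N := derivedSeries G n
    have hN : N.Normal := derivedSeries_normal G n
    have hc : ∀ a b : N, a * b = b * a := by
      intro a b
      have : ⁅(a : G), (b : G)⁆ ∈ derivedSeries G (n + 1) :=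
        Subgroup.commutator_mem_commutator a.2 b.2
      rw [h, Subgroup.mem_bot, commutatorElement_eq_one_iff_mul_comm] at this
      exact Subtype.ext this
    let _ : CommGroup N := { (inferInstance : Group N) with mul_comm := hc }
    refine env_step (A := N) N.subtype N.subtype_injective (QuotientGroup.mk' N)
      (QuotientGroup.mk'_surjective N) (fun g => ?_) k (ih _ ?_)
    · rw [QuotientGroup.mk'_apply, QuotientGroup.eq_one_iff]
      exact ⟨fun hg => ⟨⟨g, hg⟩, rfl⟩, fun ⟨a, ha⟩ => ha ▸ a.2⟩
    · rw [← map_derivedSeries_eq (QuotientGroup.mk'_surjective N) n]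
      exact QuotientGroup.map_mk'_self N

theorem env_of_solvable (k : ℕ) (G : Type) [Group G] [Finite G] [h : Group.IsSolvable G] :
    Env G k := by
  obtain ⟨n, hn⟩ := h
  exact env_of_derived k n G hn

end Pool.Agent.Lib.MP_2f2576_co
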